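import Pool.Agent.Helper72_EFX.First
import Pool.Agent.Helper84_Efx.Basic

/-! Two rounds of picks: a complete EFX allocation (helper72). -/

namespace Pool.Agent.H72Efx

open Finset Function Pool.Agent.H84Efx

variable {ι M : Type*} [DecidableEq M]

/-- `X` is a complete EFX allocation of the items `R` to the agents `N` -/
structure Efx (w : ι → M → ℝ) (N : Finset ι) (R : Finset M) (X : ι → Finset M) : Prop where
  disj : ∀ i ∈ N, ∀ j ∈ N, i ≠ j → Disjoint (X i) (X j)
  sub : ∀ i ∈ N, X i ⊆ R
  cov : ∀ g ∈ R, ∃ i ∈ N, g ∈ X i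
  efx : ∀ i ∈ N, ∀ j ∈ N, ∀ g ∈ X j, pdv (w i) ((X j).erase g) ≤ pdv (w i) (X i)

/-- every agent has an item which is, together with all other items up to `|R| - 2 |N|`
exceptions, worth at least her best item -/
theorem core' [Finite ι] {w : ι → M → ℝ} (hw : ∀ i g, 0 ≤ w i g) {N : Finset ι} {R R' : Finset M}
    (hRR' : R ⊆ R') (hN : N.Nonempty) (hcard : N.card < R.card) {f0 f : ι → M}
    (hT : Top w N R f0 f)
    (hthr : ∀ i ∈ N, ∀ y ∈ R',
      (R.filter (fun z => z ≠ f0 i ∧ w i (f0 i) + w i z < w i y)).card ≤ R.card - 2 * N.card) :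
    ∃ X, Efx w N R X ∧
      (2 * N.card ≤ R.card → ∀ i ∈ N, ∀ y ∈ R', w i y ≤ pdv (w i) (X i)) ∧
      (R.card ≤ 2 * N.card → ∀ i ∈ N, (X i).card ≤ 2) := by
  classical
  obtain ⟨F, hF⟩ : ∃ F, F = N.image f := ⟨_, rfl⟩
  obtain ⟨Q, hQ⟩ : ∃ Q, Q = R \ F := ⟨_, rfl⟩
  have hFR : F ⊆ R := by
    rw [hF]
    intro y hy
    obtain ⟨i, hi, rfl⟩ := Finset.mem_image.mp hy
    exact hT.mem i hi
  have hFc : F.card = N.card := by rw [hF]; exact Finset.card_image_of_injOn hT.inj
  have hQc : Q.card = R.card - N.card := by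
    rw [hQ, Finset.card_sdiff_of_subset hFR, hFc]
  have hNc : 0 < N.card := hN.card_pos
  have memF : ∀ i ∈ N, f i ∈ F := fun i hi => by rw [hF]; exact Finset.mem_image_of_mem f hi
  have memQ : ∀ z, z ∈ Q ↔ z ∈ R ∧ z ∉ F := fun z => by rw [hQ]; exact Finset.mem_sdiff
  have hFirst : ∀ S' : Finset ι, S' ⊆ N → S'.Nonempty → ∃ i ∈ S', ∀ j ∈ S', w i (f j) ≤ w i (f i) :=
    fun S' h1 h2 => hT.first h1 h2
  have hfree : ∀ i ∈ N, ∀ z ∈ Q, w i z ≤ w i (f i) := by
    intro i hi z hz
    rw [memQ] at hz
    exact hT.free hz.1 (fun j hj e => hz.2 (e ▸ memF j hj)) hi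
  obtain ⟨S, hSN, hSc, hstop⟩ := stop f N hFirst (N.card - min N.card Q.card) (by omega)
  have hSc' : S.card = min N.card Q.card := by omega
  obtain ⟨b, h, hh, hbi, hbQ, hb⟩ := picks (w := w) f (S.card - 1) S Q (by omega) (by omega)
    (fun S' h1 h2 => hFirst S' (h1.trans hSN) h2)
  obtain ⟨P, hP⟩ : ∃ P, P = Q \ S.image b := ⟨_, rfl⟩
  have memP : ∀ z, z ∈ P ↔ z ∈ Q ∧ ∀ j ∈ S, b j ≠ z := by
    intro z
    rw [hP, Finset.mem_sdiff, Finset.mem_image]
    push Not
    rfl
  -- thresholds
  have thr : ∀ i ∈ S, ∀ y ∈ R', w i y ≤ w i (f i) + w i (b i) := by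
    intro i hi y hy
    by_contra hc
    push Not at hc
    have hiN := hSN hi
    obtain ⟨-, -, V, hVQ, hVc, hV⟩ := hb i hi
    have h1 := hthr i hiN y hy
    have h2 := hT.dom i hiN
    set Bad := R.filter (fun z => z ≠ f0 i ∧ w i (f0 i) + w i z < w i y) with hBad
    have hWc : R.card - 2 * N.card + 1 ≤ (Q \ V).card := by
      rw [Finset.card_sdiff_of_subset hVQ]
      omega
    have hW : ∀ z ∈ Q \ V, z ≠ f0 i → z ∈ Bad := by
      intro z hz hne
      rw [Finset.mem_sdiff] at hz
      have h3 := hV z hz.1 hz.2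
      rw [hBad, Finset.mem_filter]
      exact ⟨((memQ z).1 hz.1).1, hne, by linarith⟩
    by_cases hx : f0 i ∈ Q \ V
    · have hxQ := (Finset.mem_sdiff.1 hx).1
      have h3 := hV _ hxQ (Finset.mem_sdiff.1 hx).2
      have hfx : f i ≠ f0 i := by
        intro e
        exact ((memQ _).1 hxQ).2 (e ▸ memF i hiN)
      have hfBad : f i ∈ Bad := by
        rw [hBad, Finset.mem_filter]
        exact ⟨hT.mem i hiN, hfx, by linarith⟩
      have hsub : insert (f i) ((Q \ V).erase (f0 i)) ⊆ Bad := by
        intro z hz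
        rcases Finset.mem_insert.mp hz with h4 | h4
        · rw [h4]; exact hfBad
        · exact hW z (Finset.mem_of_mem_erase h4) (Finset.mem_erase.mp h4).1
      have hni : f i ∉ (Q \ V).erase (f0 i) := by
        intro h4
        have h5 := (Finset.mem_sdiff.1 (Finset.mem_of_mem_erase h4)).1
        exact ((memQ _).1 h5).2 (memF i hiN)
      have h6 := Finset.card_le_card hsub
      rw [Finset.card_insert_of_notMem hni, Finset.card_erase_of_mem hx] at h6
      omega
    · have hsub : Q \ V ⊆ Bad := fun z hz => hW z hz (fun e => hx (e ▸ hz))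
      have h6 := Finset.card_le_card hsub
      omega
  -- the allocation
  obtain ⟨X, hX⟩ : ∃ X : ι → Finset M, X = fun i =>
    insert (f i) (if i ∈ S then (if i = h then insert (b i) P else {b i}) else ∅) := ⟨_, rfl⟩
  have memX : ∀ i g, g ∈ X i ↔ g = f i ∨ (i ∈ S ∧ (g = b i ∨ (i = h ∧ g ∈ P))) := by
    intro i g
    rw [hX]
    by_cases h1 : i ∈ S
    · by_cases h2 : i = h
      · simp [h2, hh]
      · simp [h1, h2]
    · simp [h1]
  have hfb : ∀ i ∈ N, ∀ j ∈ S, f i ≠ b j := by
    intro i hi j hj e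
    exact ((memQ _).1 (hbQ j hj)).2 (e ▸ memF i hi)
  have v1 : ∀ i, w i (f i) ≤ pdv (w i) (X i) := by
    intro i
    have h1 := le_pdv (w := w i) (S := X i) (T := {f i})
      (by rw [Finset.singleton_subset_iff, memX]; left; rfl) (by simp)
    simpa using h1
  have v2 : ∀ i ∈ S, w i (f i) + w i (b i) ≤ pdv (w i) (X i) := by
    intro i hi
    have h1 := le_pdv (w := w i) (S := X i) (T := {f i, b i})
      (by
        intro y hy
        simp only [Finset.mem_insert, Finset.mem_singleton] at hy
        rw [memX]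
        rcases hy with rfl | rfl
        · left; rfl
        · right; exact ⟨hi, Or.inl rfl⟩) Finset.card_le_two
    rwa [Finset.sum_pair (hfb i (hSN hi) i hi)] at h1
  have one : ∀ i ∈ N, ∀ j ∈ S, ∀ y, (y = f j ∨ y = b j) → w i y ≤ pdv (w i) (X i) := by
    intro i hi j hj y hy
    rcases hy with rfl | rfl
    · by_cases hiS : i ∈ S
      · exact (thr i hiS _ (hRR' (hT.mem j (hSN hj)))).trans (v2 i hiS)
      · exact (hstop i hi hiS j hj).trans (v1 i)
    · exact (hfree i hi _ (hbQ j hj)).trans (v1 i)
  refine ⟨X, ⟨?_, ?_, ?_, ?_⟩, ?_, ?_⟩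
  · intro i hi j hj hij
    rw [Finset.disjoint_left]
    intro g hg hg'
    rw [memX] at hg hg'
    rcases hg with rfl | ⟨h1, hg⟩
    · rcases hg' with h2 | ⟨h2, h3 | ⟨h3, h4⟩⟩
      · exact hij (hT.inj hi hj h2)
      · exact hfb i hi j h2 h3
      · exact ((memQ _).1 ((memP _).1 h4).1).2 (memF i hi)
    · rcases hg with rfl | ⟨h5, h6⟩
      · rcases hg' with h2 | ⟨h2, h3 | ⟨h3, h4⟩⟩
        · exact hfb j hj i h1 h2.symm
        · exact hij (hbi h1 h2 h3)
        · exact ((memP _).1 h4).2 i h1 rfl
      · rcases hg' with h2 | ⟨h2, h3 | ⟨h3, h4⟩⟩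
        · exact ((memQ _).1 ((memP _).1 h6).1).2 (h2 ▸ memF j hj)
        · exact ((memP _).1 h6).2 j h2 h3.symm
        · exact hij (h5.trans h3.symm)
  · intro i hi g hg
    rw [memX] at hg
    rcases hg with rfl | ⟨h1, rfl | ⟨h5, h6⟩⟩
    · exact hT.mem i hi
    · exact ((memQ _).1 (hbQ i h1)).1
    · exact ((memQ _).1 ((memP _).1 h6).1).1
  · intro g hg
    by_cases h1 : g ∈ F
    · rw [hF] at h1
      obtain ⟨i, hi, rfl⟩ := Finset.mem_image.mp h1
      exact ⟨i, hi, by rw [memX]; left; rfl⟩
    · have h2 : g ∈ Q := (memQ g).2 ⟨hg, h1⟩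
      by_cases h3 : ∃ j ∈ S, b j = g
      · obtain ⟨j, hj, rfl⟩ := h3
        exact ⟨j, hSN hj, by rw [memX]; right; exact ⟨hj, Or.inl rfl⟩⟩
      · push Not at h3
        exact ⟨h, hSN hh, by
          rw [memX]; right; exact ⟨hh, Or.inr ⟨rfl, (memP g).2 ⟨h2, h3⟩⟩⟩⟩
  · intro i hi j hj g hg
    refine pdv_le ?_
    intro T hTs hTc
    by_cases hjS : j ∈ S
    · by_cases hPj : j = h ∧ P.Nonempty
      · -- the host
        obtain ⟨rfl, z0, hz0⟩ := hPj
        have hSeq : S = N := by
          refine Finset.eq_of_subset_of_card_le hSN ?_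
          have h1 : (S.image b).card = S.card := Finset.card_image_of_injOn hbi
          have h2 : S.image b ⊆ Q := by
            intro y hy
            obtain ⟨k, hk, rfl⟩ := Finset.mem_image.mp hy
            exact hbQ k hk
          have h3 : P.card = Q.card - S.card := by
            rw [hP, Finset.card_sdiff_of_subset h2, h1]
          have h4 : 0 < P.card := Finset.card_pos.mpr ⟨z0, hz0⟩
          omega
        have hiS : i ∈ S := hSeq ▸ hi
        obtain ⟨hfi, hbz, -⟩ := hb i hiS
        have hA : ∀ y ∈ T, w i y ≤ w i (f i) := by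
          intro y hy
          have := (memX j y).1 (Finset.mem_of_mem_erase (hTs hy))
          rcases this with rfl | ⟨-, rfl | ⟨-, h6⟩⟩
          · exact hfi
          · exact hfree i hi _ (hbQ j hjS)
          · exact hfree i hi _ ((memP _).1 h6).1
        have hB : ∀ y ∈ T, y ≠ f j → w i y ≤ w i (b i) := by
          intro y hy hne
          have := (memX j y).1 (Finset.mem_of_mem_erase (hTs hy))
          rcases this with h1 | ⟨-, rfl | ⟨-, h6⟩⟩
          · exact absurd h1 hne
          · exact hbz _ (hbQ j hjS) (Or.inr rfl)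
          · exact hbz _ ((memP _).1 h6).1 (Or.inl ((memP _).1 h6).2)
        refine le_trans ?_ (v2 i hiS)
        have c0 : T.card = 0 ∨ T.card = 1 ∨ T.card = 2 := by omega
        rcases c0 with c | c | c
        · rw [Finset.card_eq_zero.mp c, Finset.sum_empty]
          exact add_nonneg (hw _ _) (hw _ _)
        · obtain ⟨y, rfl⟩ := Finset.card_eq_one.mp c
          rw [Finset.sum_singleton]
          have := hA y (Finset.mem_singleton_self y)
          have := hw i (b i)
          linarith
        · obtain ⟨y, z, hyz, rfl⟩ := Finset.card_eq_two.mp c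
          rw [Finset.sum_pair hyz]
          have y1 := hA y (by simp)
          have z1 := hA z (by simp)
          by_cases hy : y = f j
          · have := hB z (by simp) (fun e => hyz (hy.trans e.symm))
            linarith
          · have := hB y (by simp) hy
            linarith
      · -- a pair
        have hXj : X j ⊆ {f j, b j} := by
          intro y hy
          rw [memX] at hy
          simp only [Finset.mem_insert, Finset.mem_singleton]
          rcases hy with h1 | ⟨-, h1 | ⟨h2, h3⟩⟩
          · left; exact h1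
          · right; exact h1
          · exact absurd ⟨h2, y, h3⟩ hPj
        have hTc1 : T.card ≤ 1 := by
          have h1 := Finset.card_le_card hTs
          have h2 := Finset.card_le_card hXj
          have h3 : ({f j, b j} : Finset M).card ≤ 2 := Finset.card_le_two
          rw [Finset.card_erase_of_mem hg] at h1
          omega
        have c0 : T.card = 0 ∨ T.card = 1 := by omega
        rcases c0 with c | c
        · rw [Finset.card_eq_zero.mp c, Finset.sum_empty]
          exact pdv_nonneg
        · obtain ⟨y, rfl⟩ := Finset.card_eq_one.mp c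
          rw [Finset.sum_singleton]
          have h1 := hXj (Finset.mem_of_mem_erase (hTs (Finset.mem_singleton_self y)))
          simp only [Finset.mem_insert, Finset.mem_singleton] at h1
          exact one i hi j hjS y h1
    · have hT0 : T = ∅ := by
        rw [Finset.eq_empty_iff_forall_notMem]
        intro y hy
        have h1 := hTs hy
        rw [Finset.mem_erase] at h1
        obtain ⟨h2, h3⟩ := h1
        rw [memX] at h3 hg
        rcases h3 with h3 | h3
        · rcases hg with h4 | h4
          · exact h2 (h3.trans h4.symm)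
          · exact hjS h4.1
        · exact hjS h3.1
      rw [hT0, Finset.sum_empty]
      exact pdv_nonneg
  · intro h2 i hi y hy
    have hSeq : S = N := Finset.eq_of_subset_of_card_le hSN (by omega)
    have hiS : i ∈ S := hSeq ▸ hi
    exact (thr i hiS y hy).trans (v2 i hiS)
  · intro h2 i _
    have h1 : (S.image b).card = S.card := Finset.card_image_of_injOn hbi
    have h3 : S.image b ⊆ Q := by
      intro y hy
      obtain ⟨k, hk, rfl⟩ := Finset.mem_image.mp hy
      exact hbQ k hk
    have hP0 : P.card = 0 := by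
      rw [hP, Finset.card_sdiff_of_subset h3, h1]
      omega
    have hXi : X i ⊆ {f i, b i} := by
      intro y hy
      rw [memX] at hy
      simp only [Finset.mem_insert, Finset.mem_singleton]
      rcases hy with h4 | ⟨-, h4 | ⟨-, h5⟩⟩
      · left; exact h4
      · right; exact h4
      · rw [Finset.card_eq_zero.mp hP0] at h5
        exact absurd h5 (Finset.notMem_empty _)
    exact (Finset.card_le_card hXi).trans Finset.card_le_two

theorem core [Finite ι] {w : ι → M → ℝ} (hw : ∀ i g, 0 ≤ w i g) {N : Finset ι} {R : Finset M}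
    (hN : N.Nonempty) (hcard : N.card < R.card) {f0 f : ι → M} (hT : Top w N R f0 f)
    (hthr : ∀ i ∈ N, ∀ y ∈ R,
      (R.filter (fun z => z ≠ f0 i ∧ w i (f0 i) + w i z < w i y)).card ≤ R.card - 2 * N.card) :
    ∃ X, Efx w N R X := by
  obtain ⟨X, hX, -, -⟩ := core' hw (Finset.Subset.refl R) hN hcard hT hthr
  exact ⟨X, hX⟩

end Pool.Agent.H72Efx
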