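import Mathlib

/-! Pareto-maximal first picks and greedy second picks (helper72). -/

namespace Pool.Agent.H72Efx

open Finset Function

variable {ι M : Type*}

/-- an injective choice of one item per agent, at least as good as a given one, of largest total
weight -/
structure Top (w : ι → M → ℝ) (N : Finset ι) (R : Finset M) (f0 f : ι → M) : Prop where
  inj : Set.InjOn f (N : Set ι)
  mem : ∀ i ∈ N, f i ∈ R
  dom : ∀ i ∈ N, w i (f0 i) ≤ w i (f i)
  max : ∀ g : ι → M, Set.InjOn g (N : Set ι) → (∀ i ∈ N, g i ∈ R) →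
    (∀ i ∈ N, w i (f0 i) ≤ w i (g i)) → ∑ i ∈ N, w i (g i) ≤ ∑ i ∈ N, w i (f i)

theorem exists_top [Finite ι] [Finite M] (w : ι → M → ℝ) (N : Finset ι) (R : Finset M)
    (f0 : ι → M) (h1 : Set.InjOn f0 (N : Set ι)) (h2 : ∀ i ∈ N, f0 i ∈ R) :
    ∃ f, Top w N R f0 f := by
  obtain ⟨f, hf, hm⟩ := Set.exists_max_image
    {g : ι → M | Set.InjOn g (N : Set ι) ∧ (∀ i ∈ N, g i ∈ R) ∧ ∀ i ∈ N, w i (f0 i) ≤ w i (g i)}
    (fun g => ∑ i ∈ N, w i (g i)) (Set.toFinite _) ⟨f0, h1, h2, fun _ _ => le_refl _⟩
  exact ⟨f, hf.1, hf.2.1, hf.2.2, fun g a b c => hm g ⟨a, b, c⟩⟩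

/-- nobody prefers an unassigned item -/
theorem Top.free {w : ι → M → ℝ} {N : Finset ι} {R : Finset M} {f0 f : ι → M}
    (h : Top w N R f0 f) {z : M} (hz : z ∈ R) (hf : ∀ i ∈ N, f i ≠ z) {i : ι} (hi : i ∈ N) :
    w i z ≤ w i (f i) := by
  classical
  by_contra hc
  push Not at hc
  have h1 : Set.InjOn (update f i z) (N : Set ι) := by
    intro j hj k hk e
    by_cases ej : j = i
    · by_cases ek : k = i
      · rw [ej, ek]
      · rw [ej, update_self, update_of_ne ek] at e
        exact absurd e.symm (hf k hk)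
    · by_cases ek : k = i
      · rw [ek, update_self, update_of_ne ej] at e
        exact absurd e (hf j hj)
      · rw [update_of_ne ej, update_of_ne ek] at e
        exact h.inj hj hk e
  have h2 : ∀ j ∈ N, w j (f j) ≤ w j (update f i z j) := by
    intro j _
    by_cases ej : j = i
    · rw [ej, update_self]; exact hc.le
    · rw [update_of_ne ej]
  have h3 := h.max (update f i z) h1
    (by
      intro j hj
      by_cases ej : j = i
      · rw [ej, update_self]; exact hz
      · rw [update_of_ne ej]; exact h.mem j hj)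
    (fun j hj => (h.dom j hj).trans (h2 j hj))
  have h4 : ∑ j ∈ N, w j (f j) < ∑ j ∈ N, w j (update f i z j) :=
    Finset.sum_lt_sum h2 ⟨i, hi, by rw [update_self]; exact hc⟩
  linarith

/-- every nonempty set of agents has a member who envies no member -/
theorem Top.first [Finite ι] {w : ι → M → ℝ} {N : Finset ι} {R : Finset M} {f0 f : ι → M}
    (h : Top w N R f0 f) {S : Finset ι} (hS : S ⊆ N) (hne : S.Nonempty) :
    ∃ i ∈ S, ∀ j ∈ S, w i (f j) ≤ w i (f i) := by
  classical
  by_contra hc
  push Not at hc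
  have hex : ∀ i, ∃ k, (i ∈ S → k ∈ S ∧ w i (f i) < w i (f k)) ∧ (i ∉ S → k = i) := by
    intro i
    by_cases hi : i ∈ S
    · obtain ⟨k, h1, h2⟩ := hc i hi
      exact ⟨k, fun _ => ⟨h1, h2⟩, fun h' => absurd hi h'⟩
    · exact ⟨i, fun h' => absurd h' hi, fun _ => rfl⟩
  choose φ hφ using hex
  obtain ⟨i0, hi0⟩ := hne
  have hSit : ∀ n, φ^[n] i0 ∈ S := by
    intro n
    induction n with
    | zero => exact hi0
    | succ n ih =>
      rw [iterate_succ_apply']
      exact ((hφ _).1 ih).1
  -- a periodic point in S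
  have hper : ∃ i ∈ S, i ∈ periodicPts φ := by
    obtain ⟨m, n, hne, e⟩ := Finite.exists_ne_map_eq_of_infinite (fun n => φ^[n] i0)
    have key : ∀ m n, m < n → φ^[m] i0 = φ^[n] i0 → ∃ i ∈ S, i ∈ periodicPts φ := by
      intro m n hmn e
      refine ⟨φ^[m] i0, hSit m, n - m, by omega, ?_⟩
      change φ^[n - m] (φ^[m] i0) = φ^[m] i0
      rw [← iterate_add_apply, Nat.sub_add_cancel hmn.le]
      exact e.symm
    rcases Nat.lt_or_ge m n with h1 | h1
    · exact key m n h1 e
    · exact key n m (by omega) e.symm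
  have hbij := bijOn_periodicPts φ
  have hφN : ∀ i ∈ N, φ i ∈ N := by
    intro i hi
    by_cases hiS : i ∈ S
    · exact hS ((hφ i).1 hiS).1
    · rw [(hφ i).2 hiS]; exact hi
  set g : ι → M := fun i => if i ∈ periodicPts φ then f (φ i) else f i with hg
  have h1 : Set.InjOn g (N : Set ι) := by
    intro i hi j hj e
    rw [hg] at e
    dsimp only at e
    by_cases ei : i ∈ periodicPts φ
    · by_cases ej : j ∈ periodicPts φ
      · rw [if_pos ei, if_pos ej] at e
        exact hbij.injOn ei ej (h.inj (hφN i hi) (hφN j hj) e)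
      · rw [if_pos ei, if_neg ej] at e
        have := h.inj (hφN i hi) hj e
        exact absurd (this ▸ hbij.mapsTo ei) ej
    · by_cases ej : j ∈ periodicPts φ
      · rw [if_neg ei, if_pos ej] at e
        have := h.inj hi (hφN j hj) e
        exact absurd (this.symm ▸ hbij.mapsTo ej) ei
      · rw [if_neg ei, if_neg ej] at e
        exact h.inj hi hj e
  have h2 : ∀ i ∈ N, w i (f i) ≤ w i (g i) := by
    intro i _
    rw [hg]
    dsimp only
    by_cases ei : i ∈ periodicPts φ
    · rw [if_pos ei]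
      by_cases hiS : i ∈ S
      · exact ((hφ i).1 hiS).2.le
      · rw [(hφ i).2 hiS]
    · rw [if_neg ei]
  have h3 := h.max g h1
    (by
      intro i hi
      rw [hg]
      dsimp only
      by_cases ei : i ∈ periodicPts φ
      · rw [if_pos ei]; exact h.mem _ (hφN i hi)
      · rw [if_neg ei]; exact h.mem _ hi)
    (fun j hj => (h.dom j hj).trans (h2 j hj))
  obtain ⟨i1, hi1, hp1⟩ := hper
  have h4 : ∑ j ∈ N, w j (f j) < ∑ j ∈ N, w j (g j) :=
    Finset.sum_lt_sum h2 ⟨i1, hS hi1, by
      rw [hg]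
      dsimp only
      rw [if_pos hp1]
      exact ((hφ i1).1 hi1).2⟩
  linarith

/-- greedy second picks -/
theorem picks {w : ι → M → ℝ} (f : ι → M) (n : ℕ) :
    ∀ (S : Finset ι) (Q : Finset M), S.card = n + 1 → S.card ≤ Q.card →
    (∀ S' : Finset ι, S' ⊆ S → S'.Nonempty → ∃ i ∈ S', ∀ j ∈ S', w i (f j) ≤ w i (f i)) →
    ∃ (b : ι → M) (h : ι), h ∈ S ∧ Set.InjOn b (S : Set ι) ∧ (∀ i ∈ S, b i ∈ Q) ∧
      ∀ i ∈ S, w i (f h) ≤ w i (f i) ∧
        (∀ z ∈ Q, ((∀ j ∈ S, b j ≠ z) ∨ z = b h) → w i z ≤ w i (b i)) ∧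
        ∃ V : Finset M, V ⊆ Q ∧ V.card + 1 ≤ S.card ∧ ∀ z ∈ Q, z ∉ V → w i z ≤ w i (b i) := by
  classical
  induction n with
  | zero =>
    intro S Q hS hQ _
    obtain ⟨i, rfl⟩ := Finset.card_eq_one.mp hS
    have hQne : Q.Nonempty := by
      rw [← Finset.card_pos]; omega
    obtain ⟨q, hq, hmax⟩ := Finset.exists_max_image Q (fun z => w i z) hQne
    refine ⟨fun _ => q, i, by simp, by simp, fun _ _ => hq, ?_⟩
    intro j hj
    rw [Finset.mem_singleton] at hj
    subst hj
    exact ⟨le_refl _, fun z hz _ => hmax z hz, ∅, by simp, by simp, fun z hz _ => hmax z hz⟩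
  | succ n ih =>
    intro S Q hS hQ hF
    have hSne : S.Nonempty := by
      rw [← Finset.card_pos]; omega
    obtain ⟨i, hi, hfi⟩ := hF S (Finset.Subset.refl _) hSne
    have hQne : Q.Nonempty := by
      rw [← Finset.card_pos]; omega
    obtain ⟨q, hq, hmax⟩ := Finset.exists_max_image Q (fun z => w i z) hQne
    have c1 : (S.erase i).card = n + 1 := by rw [Finset.card_erase_of_mem hi]; omega
    have c2 : (Q.erase q).card = Q.card - 1 := Finset.card_erase_of_mem hq
    obtain ⟨b, h, hh, hinj, hmem, hall⟩ := ih (S.erase i) (Q.erase q) c1 (by omega)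
      (fun S' hS' => hF S' (hS'.trans (Finset.erase_subset _ _)))
    have hhi : h ≠ i := (Finset.mem_erase.mp hh).1
    have bq : ∀ j ∈ S, j ≠ i → b j ∈ Q.erase q := fun j hj e =>
      hmem j (Finset.mem_erase.mpr ⟨e, hj⟩)
    refine ⟨update b i q, h, Finset.mem_of_mem_erase hh, ?_, ?_, ?_⟩
    · intro j hj k hk e
      by_cases ej : j = i
      · by_cases ek : k = i
        · rw [ej, ek]
        · rw [ej, update_self, update_of_ne ek] at e
          exact absurd e.symm (Finset.mem_erase.mp (bq k hk ek)).1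
      · by_cases ek : k = i
        · rw [ek, update_self, update_of_ne ej] at e
          exact absurd e (Finset.mem_erase.mp (bq j hj ej)).1
        · rw [update_of_ne ej, update_of_ne ek] at e
          exact hinj (by simpa using ⟨hj, ej⟩) (by simpa using ⟨hk, ek⟩) e
    · intro j hj
      by_cases ej : j = i
      · rw [ej, update_self]; exact hq
      · rw [update_of_ne ej]; exact Finset.mem_of_mem_erase (bq j hj ej)
    · intro j hj
      by_cases ej : j = i
      · subst ej
        rw [update_self]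
        refine ⟨hfi h (Finset.mem_of_mem_erase hh), fun z hz _ => hmax z hz, ∅, by simp, ?_,
          fun z hz _ => hmax z hz⟩
        rw [Finset.card_empty]; omega
      · rw [update_of_ne ej, update_of_ne hhi]
        obtain ⟨a1, a2, V, a3, a4, a5⟩ := hall j (Finset.mem_erase.mpr ⟨ej, hj⟩)
        refine ⟨a1, ?_, insert q V, ?_, ?_, ?_⟩
        · intro z hz hor
          have hzq : z ≠ q := by
            rcases hor with h1 | h1
            · have := h1 i hi
              rw [update_self] at this
              exact this.symm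
            · rw [h1]
              exact (Finset.mem_erase.mp (hmem h hh)).1
          refine a2 z (Finset.mem_erase.mpr ⟨hzq, hz⟩) ?_
          rcases hor with h1 | h1
          · left
            intro k hk
            have := h1 k (Finset.mem_of_mem_erase hk)
            rwa [update_of_ne (Finset.mem_erase.mp hk).1] at this
          · right; exact h1
        · intro z hz
          rcases Finset.mem_insert.mp hz with h1 | h1
          · rw [h1]; exact hq
          · exact Finset.mem_of_mem_erase (a3 h1)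
        · have := Finset.card_insert_le q V
          omega
        · intro z hz hzV
          rw [Finset.mem_insert, not_or] at hzV
          exact a5 z (Finset.mem_erase.mpr ⟨hzV.1, hz⟩) hzV.2

/-- the agents who stop after the first pick -/
theorem stop {w : ι → M → ℝ} (f : ι → M) (N : Finset ι)
    (hF : ∀ S' : Finset ι, S' ⊆ N → S'.Nonempty → ∃ i ∈ S', ∀ j ∈ S', w i (f j) ≤ w i (f i))
    (r : ℕ) (hr : r ≤ N.card) :
    ∃ S : Finset ι, S ⊆ N ∧ S.card = N.card - r ∧
      ∀ i ∈ N, i ∉ S → ∀ j ∈ S, w i (f j) ≤ w i (f i) := by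
  classical
  induction r with
  | zero => exact ⟨N, Finset.Subset.refl _, by simp, fun i hi h => absurd hi h⟩
  | succ r ih =>
    obtain ⟨S, h1, h2, h3⟩ := ih (by omega)
    have hne : S.Nonempty := by rw [← Finset.card_pos]; omega
    obtain ⟨i, hi, hfi⟩ := hF S h1 hne
    refine ⟨S.erase i, (Finset.erase_subset _ _).trans h1, ?_, ?_⟩
    · rw [Finset.card_erase_of_mem hi]; omega
    · intro j hj hjS k hk
      by_cases e : j = i
      · rw [e]; exact hfi k (Finset.mem_of_mem_erase hk)
      · refine h3 j hj (fun h => hjS (Finset.mem_erase.mpr ⟨e, h⟩)) k (Finset.mem_of_mem_erase hk)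

end Pool.Agent.H72Efx
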