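import Pool.Agent.Helper72_EFX.Main

/-! Undemanding agents who choose last (helper72). -/

set_option linter.unusedSectionVars false

namespace Pool.Agent.H72Efx

open Finset Function Pool.Agent.H84Efx

variable {ι M : Type*} [DecidableEq M]

/-- partial states of the agents `D` with items in `R`: everybody holds one or two items, nobody
strongly envies a pair, and at least `k` items are free -/
structure DS (w : ι → M → ℝ) (D : Finset ι) (R : Finset M) (k : ℕ) (X : ι → Finset M) : Prop where
  disj : ∀ i ∈ D, ∀ j ∈ D, i ≠ j → Disjoint (X i) (X j)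
  sub : ∀ i ∈ D, X i ⊆ R
  card_le : ∀ i ∈ D, (X i).card ≤ 2
  ne : ∀ i ∈ D, (X i).Nonempty
  efx : ∀ i ∈ D, ∀ j ∈ D, (X j).card = 2 → ∀ g ∈ X j, w i g ≤ sv (w i) (X i)
  cap : k + ∑ i ∈ D, (X i).card ≤ R.card

/-- a partial state of maximal total value -/
structure DMax (w : ι → M → ℝ) (D : Finset ι) (R : Finset M) (k : ℕ) (X : ι → Finset M) :
    Prop where
  st : DS w D R k X
  max : ∀ Y, DS w D R k Y → ∑ i ∈ D, sv (w i) (Y i) ≤ ∑ i ∈ D, sv (w i) (X i)

theorem exists_dmax [Finite ι] [Finite M] (w : ι → M → ℝ) (D : Finset ι) (R : Finset M) (k : ℕ)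
    (h : k + D.card ≤ R.card) : ∃ X, DMax w D R k X := by
  classical
  have hex : ∃ X, DS w D R k X := by
    rcases D.eq_empty_or_nonempty with h0 | h0
    · subst h0
      refine ⟨fun _ => ∅, ?_, ?_, ?_, ?_, ?_, ?_⟩
      · intro i hi; simp at hi
      · intro i hi; simp at hi
      · intro i hi; simp at hi
      · intro i hi; simp at hi
      · intro i hi; simp at hi
      · rw [Finset.sum_empty]
        rw [Finset.card_empty] at h
        exact h
    · obtain ⟨f, hf, hfR⟩ := hall h0 (fun _ => R) (by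
        intro A hA
        rcases A.eq_empty_or_nonempty with h1 | ⟨a, ha⟩
        · rw [h1]; simp
        · have h2 : R ⊆ A.biUnion (fun _ => R) :=
            Finset.subset_biUnion_of_mem (fun _ : ι => R) ha
          have h3 := Finset.card_le_card h2
          have h4 := Finset.card_le_card hA
          omega)
      refine ⟨fun i => {f i}, ?_, ?_, ?_, ?_, ?_, ?_⟩
      · intro i hi j hj hij
        rw [Finset.disjoint_singleton]
        exact fun e => hij (hf hi hj e)
      · intro i hi
        rw [Finset.singleton_subset_iff]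
        exact hfR i hi
      · intro i _; simp
      · intro i _; simp
      · intro i _ j _ hc; simp at hc
      · simp only [Finset.card_singleton, Finset.sum_const, smul_eq_mul, mul_one]
        exact h
  obtain ⟨X, hX, hm⟩ := Set.exists_max_image {X | DS w D R k X}
    (fun X => ∑ i ∈ D, sv (w i) (X i)) (Set.toFinite _) hex
  exact ⟨X, hX, hm⟩

section

variable {w : ι → M → ℝ} {D : Finset ι} {R : Finset M} {k : ℕ} {X : ι → Finset M}

/-- replacing one bundle by free items -/
theorem DS.upd [DecidableEq ι] (hw : ∀ i g, 0 ≤ w i g) (h : DS w D R k X) {i : ι} (hi : i ∈ D)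
    {B : Finset M} (hBR : B ⊆ R) (hfree : ∀ z ∈ B, ∀ j ∈ D, z ∉ X j) (hc : B.card ≤ 2)
    (hn : B.Nonempty)
    (hv : sv (w i) (X i) ≤ sv (w i) B)
    (hl : B.card = 2 → ∀ g ∈ B, ∀ j ∈ D, j ≠ i → w j g ≤ sv (w j) (X j))
    (hcap : k + ∑ j ∈ D, (X j).card + B.card ≤ R.card + (X i).card) :
    DS w D R k (update X i B) := by
  have hd : ∀ j ∈ D, j ≠ i → Disjoint B (X j) := by
    intro j hj _
    rw [Finset.disjoint_left]
    intro z hz
    exact hfree z hz j hj
  refine ⟨?_, ?_, ?_, ?_, ?_, ?_⟩
  · intro j hj l hl' hjl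
    by_cases e1 : j = i
    · have e2 : l ≠ i := by rintro rfl; exact hjl e1
      rw [e1, update_self, update_of_ne e2]
      exact hd l hl' e2
    · rw [update_of_ne e1]
      by_cases e2 : l = i
      · rw [e2, update_self]; exact (hd j hj e1).symm
      · rw [update_of_ne e2]; exact h.disj j hj l hl' hjl
  · intro j hj
    by_cases e1 : j = i
    · rw [e1, update_self]; exact hBR
    · rw [update_of_ne e1]; exact h.sub j hj
  · intro j hj
    by_cases e1 : j = i
    · rw [e1, update_self]; exact hc
    · rw [update_of_ne e1]; exact h.card_le j hj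
  · intro j hj
    by_cases e1 : j = i
    · rw [e1, update_self]; exact hn
    · rw [update_of_ne e1]; exact h.ne j hj
  · intro j hj l hl' hl2 g hg
    by_cases e1 : j = i
    · rw [e1, update_self]
      by_cases e2 : l = i
      · rw [e2, update_self] at hg
        exact le_sv (hw i) hg
      · rw [update_of_ne e2] at hg hl2
        exact (h.efx i hi l hl' hl2 g hg).trans hv
    · rw [update_of_ne e1]
      by_cases e2 : l = i
      · rw [e2, update_self] at hg hl2
        exact hl hl2 g hg j hj e1
      · rw [update_of_ne e2] at hg hl2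
        exact h.efx j hj l hl' hl2 g hg
  · have e1 : ∑ j ∈ D, (update X i B j).card = B.card + ∑ j ∈ D.erase i, (X j).card := by
      rw [← Finset.add_sum_erase D _ hi, update_self]
      congr 1
      exact Finset.sum_congr rfl (fun j hj => by rw [update_of_ne (Finset.ne_of_mem_erase hj)])
    have e2 : ∑ j ∈ D, (X j).card = (X i).card + ∑ j ∈ D.erase i, (X j).card :=
      (Finset.add_sum_erase D (fun j => (X j).card) hi).symm
    omega

theorem DMax.not_lt [DecidableEq ι] (h : DMax w D R k X) {i : ι} (hi : i ∈ D) {B : Finset M}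
    (hY : DS w D R k (update X i B)) : sv (w i) B ≤ sv (w i) (X i) := by
  by_contra hc
  push Not at hc
  have h1 := h.max _ hY
  have h2 : ∑ j ∈ D, sv (w j) (X j) < ∑ j ∈ D, sv (w j) (update X i B j) := by
    refine Finset.sum_lt_sum ?_ ⟨i, hi, by rw [update_self]; exact hc⟩
    intro j _
    by_cases e : j = i
    · rw [e, update_self]; exact hc.le
    · rw [update_of_ne e]
  linarith

theorem DMax.one (hw : ∀ i g, 0 ≤ w i g) (h : DMax w D R k X) {z : M} (hzR : z ∈ R)
    (hz : ∀ j ∈ D, z ∉ X j) {i : ι} (hi : i ∈ D) : w i z ≤ sv (w i) (X i) := by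
  classical
  by_contra hc
  push Not at hc
  have hv : sv (w i) (X i) ≤ sv (w i) {z} := by rw [sv_single]; exact hc.le
  have hpos := (h.st.ne i hi).card_pos
  have hcap := h.st.cap
  have hY := h.st.upd hw hi (B := {z}) (by rwa [Finset.singleton_subset_iff])
    (fun y hy j hj => by rw [Finset.mem_singleton] at hy; rw [hy]; exact hz j hj) (by simp)
    (by simp) hv (fun h => by simp at h) (by rw [Finset.card_singleton]; omega)
  have h1 := h.not_lt hi hY
  rw [sv_single] at h1
  linarith

theorem DMax.two (hw : ∀ i g, 0 ≤ w i g) (h : DMax w D R k X)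
    (hlt : k + ∑ i ∈ D, (X i).card < R.card) {z z' : M} (hzR : z ∈ R) (hzR' : z' ∈ R)
    (hz : ∀ j ∈ D, z ∉ X j) (hz' : ∀ j ∈ D, z' ∉ X j) (hne : z ≠ z') {i : ι} (hi : i ∈ D) :
    w i z + w i z' ≤ sv (w i) (X i) := by
  classical
  by_contra hc
  push Not at hc
  have hv : sv (w i) (X i) ≤ sv (w i) {z, z'} := by rw [sv_pair hne]; exact hc.le
  have hpos := (h.st.ne i hi).card_pos
  have hY := h.st.upd hw hi (B := {z, z'})
    (by
      intro y hy
      simp only [Finset.mem_insert, Finset.mem_singleton] at hy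
      rcases hy with rfl | rfl
      · exact hzR
      · exact hzR')
    (by
      intro y hy j hj
      simp only [Finset.mem_insert, Finset.mem_singleton] at hy
      rcases hy with rfl | rfl
      · exact hz j hj
      · exact hz' j hj) Finset.card_le_two (by simp) hv
    (by
      intro _ y hy j hj _
      simp only [Finset.mem_insert, Finset.mem_singleton] at hy
      rcases hy with rfl | rfl
      · exact h.one hw hzR hz hj
      · exact h.one hw hzR' hz' hj)
    (by rw [Finset.card_pair hne]; omega)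
  have h1 := h.not_lt hi hY
  rw [sv_pair hne] at h1
  linarith

end

/-- A nonempty set `F` of undemanding agents chooses last; the other agents are arbitrary. -/
theorem last [Finite ι] [Finite M] {w : ι → M → ℝ} (hw : ∀ i g, 0 ≤ w i g) {N F : Finset ι}
    {R : Finset M} (hFN : F ⊆ N) (hF : F.Nonempty) (hm : N.card + F.card ≤ R.card) {q : ℕ}
    (hq1 : 2 * (N.card - F.card) ≤ q ∨ R.card - 2 * F.card ≤ q)
    (A C : ι → Finset M)
    (hA : ∀ i ∈ F, q + F.card ≤ (A i).card) (hC : ∀ i ∈ F, q + 2 * F.card ≤ (C i).card)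
    (hAR : ∀ i ∈ F, A i ⊆ R) (hCR : ∀ i ∈ F, C i ⊆ R)
    (h : ∀ i ∈ F, ∀ x ∈ A i, ∀ z ∈ C i, x ≠ z → ∀ y ∈ R, w i y ≤ w i x + w i z) :
    ∃ X, Efx w N R X := by
  classical
  obtain ⟨D, hD⟩ : ∃ D, D = N \ F := ⟨_, rfl⟩
  have hFn : F.card ≤ N.card := Finset.card_le_card hFN
  have hFpos := hF.card_pos
  have hDc : D.card = N.card - F.card := by
    rw [hD, Finset.card_sdiff_of_subset hFN]
  have memD : ∀ i ∈ N, (i ∈ D ↔ i ∉ F) := by
    intro i hi; rw [hD, Finset.mem_sdiff]; exact ⟨fun h => h.2, fun h => ⟨hi, h⟩⟩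
  have hDN : ∀ i ∈ D, i ∈ N ∧ i ∉ F := by
    intro i hi; rw [hD, Finset.mem_sdiff] at hi; exact hi
  obtain ⟨X, hX⟩ := exists_dmax w D R (2 * F.card) (by omega)
  obtain ⟨s, hs⟩ : ∃ s, s = ∑ i ∈ D, (X i).card := ⟨_, rfl⟩
  have hcap : 2 * F.card + s ≤ R.card := by rw [hs]; exact hX.st.cap
  have hs2 : s ≤ 2 * D.card := by
    rw [hs]
    have := Finset.sum_le_card_nsmul D (fun i => (X i).card) 2 (fun i hi => hX.st.card_le i hi)
    rw [smul_eq_mul] at this
    omega
  have hsq : s ≤ q := by omega
  have hUR : D.biUnion X ⊆ R := by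
    intro y hy
    obtain ⟨i, hi, hy⟩ := Finset.mem_biUnion.mp hy
    exact hX.st.sub i hi hy
  obtain ⟨P, hP⟩ : ∃ P, P = R \ D.biUnion X := ⟨_, rfl⟩
  have hPR : P ⊆ R := by rw [hP]; exact Finset.sdiff_subset
  have hUc : (D.biUnion X).card = s := by
    rw [hs]
    exact Finset.card_biUnion (fun i hi j hj hij => hX.st.disj i hi j hj hij)
  have hPc : P.card = R.card - s := by
    rw [hP, Finset.card_sdiff_of_subset hUR, hUc]
  have memP : ∀ z, z ∈ P ↔ z ∈ R ∧ ∀ j ∈ D, z ∉ X j := by
    intro z
    rw [hP, Finset.mem_sdiff, Finset.mem_biUnion]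
    push Not
    rfl
  -- large intersections with the pool
  have hint : ∀ B : Finset M, B ⊆ R → B.card ≤ (B ∩ P).card + s := by
    intro B hB
    have h1 := Finset.card_sdiff_add_card_inter B P
    have h2 : B \ P ⊆ D.biUnion X := by
      intro y hy
      rw [Finset.mem_sdiff] at hy
      by_contra h3
      exact hy.2 (by rw [hP]; exact Finset.mem_sdiff.mpr ⟨hB hy.1, h3⟩)
    have h4 := Finset.card_le_card h2
    omega
  -- the first picks of `F`
  obtain ⟨f0, hf1, hf2⟩ := hall hF (fun i => A i ∩ P) (by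
    intro B hB
    rcases B.eq_empty_or_nonempty with h1 | ⟨a, ha⟩
    · rw [h1]; simp
    · have h2 : A a ∩ P ⊆ B.biUnion (fun i => A i ∩ P) :=
        Finset.subset_biUnion_of_mem (fun i => A i ∩ P) ha
      have h3 := Finset.card_le_card h2
      have h4 := hint (A a) (hAR a (hB ha))
      have h5 := hA a (hB ha)
      have h6 := Finset.card_le_card hB
      omega)
  obtain ⟨f, hf⟩ := exists_top w F P f0 hf1 (fun i hi => Finset.inter_subset_right (hf2 i hi))
  obtain ⟨Z, hZ, hZ1, hZ2⟩ := core' hw hPR hF (by omega) hf (by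
    intro i hi y hy
    have hsub : P.filter (fun z => z ≠ f0 i ∧ w i (f0 i) + w i z < w i y) ⊆ P \ (C i ∩ P) := by
      intro z hz
      rw [Finset.mem_filter] at hz
      rw [Finset.mem_sdiff]
      refine ⟨hz.1, fun hzC => ?_⟩
      have := h i hi (f0 i) (Finset.inter_subset_left (hf2 i hi)) z
        (Finset.inter_subset_left hzC) hz.2.1.symm y hy
      linarith [hz.2.2]
    have h1 := Finset.card_le_card hsub
    rw [Finset.card_sdiff_of_subset Finset.inter_subset_right] at h1
    have h2 := hint (C i) (hCR i hi)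
    have h3 := hC i hi
    omega)
  have hpair : ∀ i ∈ D, sv (w i) (X i) ≤ pdv (w i) (X i) := fun i hi =>
    le_pdv (Finset.Subset.refl _) (hX.st.card_le i hi)
  -- a bundle of `D` without one item
  have small : ∀ j ∈ D, ∀ g ∈ X j, ∀ T ⊆ (X j).erase g, T = ∅ ∨
      ∃ y, T = {y} ∧ y ∈ X j ∧ (X j).card = 2 := by
    intro j hj g hg T hT
    have h1 := Finset.card_le_card hT
    rw [Finset.card_erase_of_mem hg] at h1
    have h2 := hX.st.card_le j hj
    have c0 : T.card = 0 ∨ T.card = 1 := by omega
    rcases c0 with c | c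
    · left; exact Finset.card_eq_zero.mp c
    · right
      obtain ⟨y, rfl⟩ := Finset.card_eq_one.mp c
      exact ⟨y, rfl, Finset.mem_of_mem_erase (hT (Finset.mem_singleton_self y)), by omega⟩
  obtain ⟨W, hW⟩ : ∃ W : ι → Finset M, W = fun i => if i ∈ F then Z i else X i := ⟨_, rfl⟩
  have hWF : ∀ i ∈ F, W i = Z i := fun i hi => by rw [hW]; dsimp only; rw [if_pos hi]
  have hWD : ∀ i, i ∉ F → W i = X i := fun i hi => by rw [hW]; dsimp only; rw [if_neg hi]
  refine ⟨W, ⟨?_, ?_, ?_, ?_⟩⟩
  · intro i hiN j hjN hij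
    have cross : ∀ i ∈ F, ∀ j ∈ N, j ∉ F → Disjoint (Z i) (X j) := by
      intro i hi j hjN hj
      rw [Finset.disjoint_left]
      intro g hg
      exact ((memP g).1 (hZ.sub i hi hg)).2 j ((memD j hjN).2 hj)
    by_cases hiF : i ∈ F
    · by_cases hjF : j ∈ F
      · rw [hWF i hiF, hWF j hjF]; exact hZ.disj i hiF j hjF hij
      · rw [hWF i hiF, hWD j hjF]; exact cross i hiF j hjN hjF
    · by_cases hjF : j ∈ F
      · rw [hWD i hiF, hWF j hjF]; exact (cross j hjF i hiN hiF).symm
      · rw [hWD i hiF, hWD j hjF]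
        exact hX.st.disj i ((memD i hiN).2 hiF) j ((memD j hjN).2 hjF) hij
  · intro i hiN
    by_cases hiF : i ∈ F
    · rw [hWF i hiF]; exact (hZ.sub i hiF).trans hPR
    · rw [hWD i hiF]; exact hX.st.sub i ((memD i hiN).2 hiF)
  · intro g hgR
    by_cases hg : g ∈ P
    · obtain ⟨i, hi, hgi⟩ := hZ.cov g hg
      exact ⟨i, hFN hi, by rw [hWF i hi]; exact hgi⟩
    · rw [memP] at hg
      push Not at hg
      obtain ⟨j, hj, hgj⟩ := hg hgR
      exact ⟨j, (hDN j hj).1, by rw [hWD j (hDN j hj).2]; exact hgj⟩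
  · intro i hiN j hjN g hg
    by_cases hjF : j ∈ F
    · rw [hWF j hjF] at hg ⊢
      by_cases hiF : i ∈ F
      · rw [hWF i hiF]; exact hZ.efx i hiF j hjF g hg
      · rw [hWD i hiF]
        have hiD := (memD i hiN).2 hiF
        refine le_trans ?_ (hpair i hiD)
        have hfreeP : ∀ y ∈ Z j, ∀ l ∈ D, y ∉ X l := fun y hy =>
          ((memP y).1 (hZ.sub j hjF hy)).2
        have hRP : ∀ y ∈ Z j, y ∈ R := fun y hy => hPR (hZ.sub j hjF hy)
        refine pdv_le ?_
        intro T hT hTc
        by_cases hP2 : 2 * F.card < P.card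
        · have hlt : 2 * F.card + ∑ i ∈ D, (X i).card < R.card := by
            rw [← hs]; omega
          have c0 : T.card = 0 ∨ T.card = 1 ∨ T.card = 2 := by omega
          rcases c0 with c | c | c
          · rw [Finset.card_eq_zero.mp c, Finset.sum_empty]
            exact sv_nonneg (hw i) _
          · obtain ⟨y, rfl⟩ := Finset.card_eq_one.mp c
            rw [Finset.sum_singleton]
            have hy := Finset.mem_of_mem_erase (hT (by simp : y ∈ ({y} : Finset M)))
            exact hX.one hw (hRP y hy) (hfreeP y hy) hiD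
          · obtain ⟨y, z, hyz, rfl⟩ := Finset.card_eq_two.mp c
            rw [Finset.sum_pair hyz]
            have hy := Finset.mem_of_mem_erase (hT (by simp : y ∈ ({y, z} : Finset M)))
            have hz := Finset.mem_of_mem_erase (hT (by simp : z ∈ ({y, z} : Finset M)))
            exact hX.two hw hlt (hRP y hy) (hRP z hz) (hfreeP y hy) (hfreeP z hz) hyz hiD
        · have h2 := hZ2 (by omega) j hjF
          have h1 := Finset.card_le_card hT
          rw [Finset.card_erase_of_mem hg] at h1
          have c0 : T.card = 0 ∨ T.card = 1 := by omega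
          rcases c0 with c | c
          · rw [Finset.card_eq_zero.mp c, Finset.sum_empty]
            exact sv_nonneg (hw i) _
          · obtain ⟨y, rfl⟩ := Finset.card_eq_one.mp c
            rw [Finset.sum_singleton]
            have hy := Finset.mem_of_mem_erase (hT (by simp : y ∈ ({y} : Finset M)))
            exact hX.one hw (hRP y hy) (hfreeP y hy) hiD
    · rw [hWD j hjF] at hg ⊢
      have hjD := (memD j hjN).2 hjF
      refine pdv_le ?_
      intro T hT _
      rcases small j hjD g hg T hT with h0 | ⟨y, h0, hy, hc⟩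
      · rw [h0, Finset.sum_empty]; exact pdv_nonneg
      · rw [h0, Finset.sum_singleton]
        by_cases hiF : i ∈ F
        · rw [hWF i hiF]
          exact hZ1 (by omega) i hiF y (hX.st.sub j hjD hy)
        · rw [hWD i hiF]
          have hiD := (memD i hiN).2 hiF
          exact (hX.st.efx i hiD j hjD hc y hy).trans (hpair i hiD)

end Pool.Agent.H72Efx
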