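import Pool.Agent.Helper72_EFX.Core

/-! The induction over content groups of agents (helper72). -/

namespace Pool.Agent.H72Efx

open Finset Function Pool.Agent.H84Efx

variable {ι M : Type*} [DecidableEq M]

/-- Whenever fewer than `n` of the items `R` are removed there is a nonempty set `T` of large
items: each of them, together with all the other ones up to a few exceptions, is worth at least
the best item; and there are many large items, or each large item is worth at least as much as any
two items which are not large. -/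
def Tame (v : M → ℝ) (R : Finset M) (n : ℕ) : Prop :=
  ∀ B : Finset M, B ⊆ R → B.card < n → (R \ B).Nonempty →
    ∃ T : Finset M, T ⊆ R \ B ∧ T.Nonempty ∧
      (∀ x ∈ T, ∀ y ∈ R \ B, ((R \ B).filter (fun z => z ≠ x ∧ v x + v z < v y)).card ≤
        (R \ B).card - 2 * (n - B.card)) ∧
      (n ≤ T.card + B.card ∨
        ∀ x ∈ T, ∀ y ∈ (R \ B) \ T, ∀ z ∈ (R \ B) \ T, y ≠ z → v y + v z ≤ v x)

theorem Tame.sdiff {v : M → ℝ} {R : Finset M} {n : ℕ} (h : Tame v R n) {B : Finset M} (hB : B ⊆ R) :
    Tame v (R \ B) (n - B.card) := by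
  intro C hC hc hne
  have hd : Disjoint B C := by
    rw [Finset.disjoint_left]
    intro y hy hy'
    exact (Finset.mem_sdiff.mp (hC hy')).2 hy
  have e1 : (R \ B) \ C = R \ (B ∪ C) := by
    ext y
    simp only [Finset.mem_sdiff, Finset.mem_union, not_or]
    tauto
  have e2 : (B ∪ C).card = B.card + C.card := Finset.card_union_of_disjoint hd
  rw [e1] at hne ⊢
  obtain ⟨T, h1, h2, h3, h4⟩ := h (B ∪ C) (Finset.union_subset hB (hC.trans Finset.sdiff_subset))
    (by omega) hne
  refine ⟨T, h1, h2, ?_, ?_⟩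
  · intro x hx y hy
    have := h3 x hx y hy
    rw [e2] at this
    refine this.trans (le_of_eq ?_)
    congr 2
    omega
  · rcases h4 with h4 | h4
    · left; omega
    · right; exact h4

/-- at most one item for everybody -/
theorem few_items {w : ι → M → ℝ} {N : Finset ι} {R : Finset M} (hN : N.Nonempty)
    (h : R.card ≤ N.card) : ∃ X, Efx w N R X := by
  classical
  obtain ⟨i0, hi0⟩ := hN
  obtain ⟨e⟩ : Nonempty (R ↪ N) := by
    refine Function.Embedding.nonempty_of_card_le ?_
    rw [Fintype.card_coe, Fintype.card_coe]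
    exact h
  obtain ⟨c, hc⟩ : ∃ c : M → ι, c = fun g => if hg : g ∈ R then (e ⟨g, hg⟩ : ι) else i0 := ⟨_, rfl⟩
  have hcR : ∀ g (hg : g ∈ R), c g = (e ⟨g, hg⟩ : ι) := by
    intro g hg
    rw [hc]
    dsimp only
    rw [dif_pos hg]
  have hinj : ∀ g ∈ R, ∀ g' ∈ R, c g = c g' → g = g' := by
    intro g hg g' hg' h1
    rw [hcR g hg, hcR g' hg'] at h1
    have := e.injective (Subtype.ext h1)
    exact congrArg Subtype.val this
  refine ⟨fun i => R.filter (fun g => c g = i), ?_, ?_, ?_, ?_⟩
  · intro i _ j _ hij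
    rw [Finset.disjoint_left]
    intro g hg hg'
    rw [Finset.mem_filter] at hg hg'
    exact hij (hg.2.symm.trans hg'.2)
  · intro i _
    exact Finset.filter_subset _ _
  · intro g hg
    refine ⟨c g, ?_, ?_⟩
    · rw [hcR g hg]; exact (e ⟨g, hg⟩).2
    · rw [Finset.mem_filter]; exact ⟨hg, rfl⟩
  · intro i _ j _ g hg
    refine (pdv_le ?_).trans pdv_nonneg
    intro T hT _
    have hT0 : T = ∅ := by
      rw [Finset.eq_empty_iff_forall_notMem]
      intro y hy
      have h1 := Finset.mem_erase.mp (hT hy)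
      rw [Finset.mem_filter] at h1 hg
      exact h1.1 (hinj y h1.2.1 g hg.1 (h1.2.2.trans hg.2.symm))
    rw [hT0, Finset.sum_empty]

/-- Hall's theorem inside a finite set -/
theorem hall {N : Finset ι} (hN : N.Nonempty) (T : ι → Finset M)
    (h : ∀ A : Finset ι, A ⊆ N → A.card ≤ (A.biUnion T).card) :
    ∃ f : ι → M, Set.InjOn f (N : Set ι) ∧ ∀ i ∈ N, f i ∈ T i := by
  classical
  obtain ⟨i0, hi0⟩ := hN
  obtain ⟨f, hf1, hf2⟩ := (Finset.all_card_le_biUnion_card_iff_exists_injective
    (fun i : N => T i)).mp (by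
      intro s
      have h1 := h (s.map ⟨Subtype.val, Subtype.val_injective⟩) (by
        intro i hi
        obtain ⟨j, _, rfl⟩ := Finset.mem_map.mp hi
        exact j.2)
      rw [Finset.card_map] at h1
      refine h1.trans (Finset.card_le_card ?_)
      intro x hx
      rw [Finset.mem_biUnion] at hx ⊢
      obtain ⟨i, hi, hx⟩ := hx
      obtain ⟨j, hj, rfl⟩ := Finset.mem_map.mp hi
      exact ⟨j, hj, hx⟩)
  obtain ⟨g, hg⟩ : ∃ g : ι → M, g = fun i => if hi : i ∈ N then f ⟨i, hi⟩ else f ⟨i0, hi0⟩ :=
    ⟨_, rfl⟩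
  have hgN : ∀ i (hi : i ∈ N), g i = f ⟨i, hi⟩ := by
    intro i hi
    rw [hg]
    dsimp only
    rw [dif_pos hi]
  refine ⟨g, ?_, ?_⟩
  · intro i hi j hj e
    rw [hgN i hi, hgN j hj] at e
    exact congrArg Subtype.val (hf1 e)
  · intro i hi
    rw [hgN i hi]
    exact hf2 ⟨i, hi⟩

/-- a content group: the agents `C` get one item of `B` each and leave -/
theorem content {w : ι → M → ℝ} (hw : ∀ i g, 0 ≤ w i g) [DecidableEq ι] {N C : Finset ι}
    {R B : Finset M} {f : ι → M} (hCN : C ⊆ N) (hBR : B ⊆ R) (hf1 : Set.InjOn f (C : Set ι))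
    (hBimg : C.image f = B)
    (hcont : ∀ i ∈ C, ∀ y ∈ R \ B, ∀ z ∈ R \ B, y ≠ z → w i y + w i z ≤ w i (f i))
    {X' : ι → Finset M} (hX' : Efx w (N \ C) (R \ B) X') : ∃ X, Efx w N R X := by
  classical
  obtain ⟨X, hX⟩ : ∃ X : ι → Finset M, X = fun i => if i ∈ C then {f i} else X' i := ⟨_, rfl⟩
  have hXC : ∀ i ∈ C, X i = {f i} := fun i hi => by rw [hX]; dsimp only; rw [if_pos hi]
  have hXN : ∀ i, i ∉ C → X i = X' i := fun i hi => by rw [hX]; dsimp only; rw [if_neg hi]
  have hN' : ∀ i ∈ N, i ∉ C → i ∈ N \ C := fun i h1 h2 => Finset.mem_sdiff.mpr ⟨h1, h2⟩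
  have hfB : ∀ i ∈ C, f i ∈ B := fun i hi => hBimg ▸ Finset.mem_image_of_mem f hi
  have hcross : ∀ i ∈ C, ∀ j ∈ N \ C, f i ∉ X' j := by
    intro i hi j hj h
    exact (Finset.mem_sdiff.mp (hX'.sub j hj h)).2 (hfB i hi)
  refine ⟨X, ?_, ?_, ?_, ?_⟩
  · intro i hi j hj hij
    by_cases hiC : i ∈ C
    · by_cases hjC : j ∈ C
      · rw [hXC i hiC, hXC j hjC, Finset.disjoint_singleton]
        exact fun e => hij (hf1 hiC hjC e)
      · rw [hXC i hiC, hXN j hjC, Finset.disjoint_singleton_left]
        exact hcross i hiC j (hN' j hj hjC)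
    · by_cases hjC : j ∈ C
      · rw [hXN i hiC, hXC j hjC, Finset.disjoint_singleton_right]
        exact hcross j hjC i (hN' i hi hiC)
      · rw [hXN i hiC, hXN j hjC]
        exact hX'.disj i (hN' i hi hiC) j (hN' j hj hjC) hij
  · intro i hi
    by_cases hiC : i ∈ C
    · rw [hXC i hiC, Finset.singleton_subset_iff]
      exact hBR (hfB i hiC)
    · rw [hXN i hiC]
      exact (hX'.sub i (hN' i hi hiC)).trans Finset.sdiff_subset
  · intro g hg
    by_cases hgB : g ∈ B
    · rw [← hBimg] at hgB
      obtain ⟨i, hi, rfl⟩ := Finset.mem_image.mp hgB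
      exact ⟨i, hCN hi, by rw [hXC i hi]; simp⟩
    · obtain ⟨i, hi, hgi⟩ := hX'.cov g (Finset.mem_sdiff.mpr ⟨hg, hgB⟩)
      rw [Finset.mem_sdiff] at hi
      exact ⟨i, hi.1, by rw [hXN i hi.2]; exact hgi⟩
  · intro i hi j hj g hg
    by_cases hjC : j ∈ C
    · rw [hXC j hjC] at hg ⊢
      refine (pdv_le ?_).trans pdv_nonneg
      intro U hU _
      have hU0 : U = ∅ := by
        rw [Finset.eq_empty_iff_forall_notMem]
        intro y hy
        have h1 := Finset.mem_erase.mp (hU hy)
        rw [Finset.mem_singleton] at h1 hg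
        exact h1.1 (h1.2.trans hg.symm)
      rw [hU0, Finset.sum_empty]
    · have hjN := hN' j hj hjC
      rw [hXN j hjC] at hg ⊢
      by_cases hiC : i ∈ C
      · rw [hXC i hiC]
        have hsing : w i (f i) ≤ pdv (w i) {f i} := by
          have h1 := le_pdv (w := w i) (S := {f i}) (T := {f i}) (Finset.Subset.refl _) (by simp)
          simpa using h1
        refine (pdv_le ?_).trans hsing
        intro U hU hUc
        have hgR := hX'.sub j hjN hg
        have c0 : U.card = 0 ∨ U.card = 1 ∨ U.card = 2 := by omega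
        rcases c0 with c | c | c
        · rw [Finset.card_eq_zero.mp c, Finset.sum_empty]
          exact hw _ _
        · obtain ⟨y, rfl⟩ := Finset.card_eq_one.mp c
          rw [Finset.sum_singleton]
          have h1 := Finset.mem_erase.mp (hU (Finset.mem_singleton_self y))
          have h2 := hcont i hiC y (hX'.sub j hjN h1.2) g hgR h1.1
          have := hw i g
          linarith
        · obtain ⟨y, z, hyz, rfl⟩ := Finset.card_eq_two.mp c
          rw [Finset.sum_pair hyz]
          have h1 := Finset.mem_erase.mp (hU (by simp : y ∈ ({y, z} : Finset M)))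
          have h2 := Finset.mem_erase.mp (hU (by simp : z ∈ ({y, z} : Finset M)))
          exact hcont i hiC y (hX'.sub j hjN h1.2) z (hX'.sub j hjN h2.2) hyz
      · rw [hXN i hiC]
        exact hX'.efx i (hN' i hi hiC) j hjN g hg

/-- the main theorem for a finite set of agents and a finite set of items -/
theorem main [Finite ι] [Finite M] {w : ι → M → ℝ} (hw : ∀ i g, 0 ≤ w i g) (s : ι) (k : ℕ) :
    ∀ (N : Finset ι) (R : Finset M), N.card = k → N.Nonempty →
      (∀ i ∈ N, i ≠ s → Tame (w i) R N.card) → ∃ X, Efx w N R X := by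
  classical
  induction k using Nat.strong_induction_on with
  | _ k ih =>
    intro N R hk hN hTame
    rcases Nat.lt_or_ge N.card R.card with hlt | hge
    swap
    · exact few_items hN hge
    have hRne : R.Nonempty := by rw [← Finset.card_pos]; omega
    have hNc : 0 < N.card := hN.card_pos
    -- the sets of large items
    have hex : ∀ i, ∃ T : Finset M, i ∈ N → (T ⊆ R ∧ T.Nonempty ∧
        (∀ x ∈ T, ∀ y ∈ R, (R.filter (fun z => z ≠ x ∧ w i x + w i z < w i y)).card ≤
          R.card - 2 * N.card) ∧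
        (i ≠ s → (N.card ≤ T.card ∨
          ∀ x ∈ T, ∀ y ∈ R \ T, ∀ z ∈ R \ T, y ≠ z → w i y + w i z ≤ w i x))) := by
      intro i
      by_cases hi : i ∈ N
      · by_cases his : i = s
        · obtain ⟨x, hx, hmax⟩ := Finset.exists_max_image R (fun z => w i z) hRne
          refine ⟨{x}, fun _ => ⟨by simpa using hx, by simp, ?_, fun h => absurd his h⟩⟩
          intro x' hx' y hy
          rw [Finset.mem_singleton] at hx'
          subst hx'
          rw [Finset.filter_false_of_mem]
          · simp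
          · rintro z hz ⟨-, h2⟩
            have h3 := hmax y hy
            have h4 := hw i z
            linarith
        · obtain ⟨T, h1, h2, h3, h4⟩ := hTame i hi his ∅ (Finset.empty_subset _)
            (by rw [Finset.card_empty]; exact hNc) (by rw [Finset.sdiff_empty]; exact hRne)
          rw [Finset.sdiff_empty] at h1 h3 h4
          rw [Finset.card_empty, Nat.sub_zero] at h3
          rw [Finset.card_empty, Nat.add_zero] at h4
          exact ⟨T, fun _ => ⟨h1, h2, h3, fun _ => h4⟩⟩
      · exact ⟨∅, fun h => absurd h hi⟩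
    choose T hT using hex
    by_cases hHall : ∀ A : Finset ι, A ⊆ N → A.card ≤ (A.biUnion T).card
    · obtain ⟨f0, hf1, hf2⟩ := hall hN T hHall
      obtain ⟨f, hf⟩ := exists_top w N R f0 hf1 (fun i hi => (hT i hi).1 (hf2 i hi))
      exact core hw hN hlt hf (fun i hi y hy => (hT i hi).2.2.1 _ (hf2 i hi) y hy)
    · push Not at hHall
      obtain ⟨A0, hA0, hA0'⟩ := hHall
      obtain ⟨A, hA, hAmin⟩ := Finset.exists_min_image
        (N.powerset.filter (fun A => (A.biUnion T).card < A.card)) Finset.card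
        ⟨A0, by rw [Finset.mem_filter, Finset.mem_powerset]; exact ⟨hA0, hA0'⟩⟩
      rw [Finset.mem_filter, Finset.mem_powerset] at hA
      obtain ⟨hAN, hAv⟩ := hA
      have hmin : ∀ A' : Finset ι, A' ⊆ N → A'.card < A.card → A'.card ≤ (A'.biUnion T).card := by
        intro A' h1 h2
        by_contra h3
        push Not at h3
        have := hAmin A' (by rw [Finset.mem_filter, Finset.mem_powerset]; exact ⟨h1, h3⟩)
        omega
      have hAne : A.Nonempty := by rw [← Finset.card_pos]; omega
      obtain ⟨i0, hi0, hi0s⟩ : ∃ i0 ∈ A, s ∈ A → i0 = s := by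
        by_cases hs : s ∈ A
        · exact ⟨s, hs, fun _ => rfl⟩
        · obtain ⟨i, hi⟩ := hAne
          exact ⟨i, hi, fun h => absurd h hs⟩
      have hC1 : (A.erase i0).card = A.card - 1 := Finset.card_erase_of_mem hi0
      have hAc : 0 < A.card := hAne.card_pos
      have hTA : ∀ i ∈ A, T i ⊆ A.biUnion T := fun i hi => Finset.subset_biUnion_of_mem T hi
      obtain ⟨x0, hx0⟩ := (hT i0 (hAN hi0)).2.1
      have hBpos : 0 < (A.biUnion T).card := Finset.card_pos.mpr ⟨x0, hTA i0 hi0 hx0⟩
      have hCne : (A.erase i0).Nonempty := by rw [← Finset.card_pos]; omega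
      have hCN : A.erase i0 ⊆ N := (Finset.erase_subset _ _).trans hAN
      obtain ⟨f, hf1, hf2⟩ := hall hCne T (by
        intro A' hA'
        refine hmin A' (hA'.trans hCN) ?_
        have := Finset.card_le_card hA'
        omega)
      obtain ⟨C, hC⟩ : ∃ C, C = A.erase i0 := ⟨_, rfl⟩
      obtain ⟨B, hB⟩ : ∃ B, B = A.biUnion T := ⟨_, rfl⟩
      rw [← hC] at hC1 hCne hCN hf1 hf2
      rw [← hB] at hAv hBpos
      have hCA : C ⊆ A := by rw [hC]; exact Finset.erase_subset _ _
      have hCs : ∀ i ∈ C, i ≠ s := by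
        intro i hi e
        rw [hC, Finset.mem_erase] at hi
        exact hi.1 (e.trans (hi0s (e ▸ hi.2)).symm)
      have hTB : ∀ i ∈ A, T i ⊆ B := by rw [hB]; exact hTA
      have himg : C.image f ⊆ B := by
        intro y hy
        obtain ⟨i, hi, rfl⟩ := Finset.mem_image.mp hy
        exact hTB i (hCA hi) (hf2 i hi)
      have hcimg : (C.image f).card = C.card := Finset.card_image_of_injOn hf1
      have hBC : B.card = C.card := by
        have := Finset.card_le_card himg
        omega
      have hBimg : C.image f = B := Finset.eq_of_subset_of_card_le himg (by omega)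
      have hBR : B ⊆ R := by
        rw [hB]
        intro y hy
        obtain ⟨i, hi, hy⟩ := Finset.mem_biUnion.mp hy
        exact (hT i (hAN hi)).1 hy
      have hAleN := Finset.card_le_card hAN
      have hN'c : (N \ C).card = N.card - B.card := by
        rw [Finset.card_sdiff_of_subset hCN, hBC]
      have hi0C : i0 ∉ C := by rw [hC]; simp
      have hN'ne : (N \ C).Nonempty := ⟨i0, Finset.mem_sdiff.mpr ⟨hAN hi0, hi0C⟩⟩
      obtain ⟨X', hX'⟩ := ih (N \ C).card (by omega) (N \ C) (R \ B) rfl hN'ne (by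
        intro i hi his
        rw [hN'c]
        exact (hTame i (Finset.mem_sdiff.mp hi).1 his).sdiff hBR)
      refine content hw hCN hBR hf1 hBimg ?_ hX'
      intro i hiC y hy z hz hyz
      have hiA := hCA hiC
      rcases (hT i (hCN hiC)).2.2.2 (hCs i hiC) with h1 | h1
      · have := Finset.card_le_card (hTB i hiA)
        omega
      · have hsub : ∀ u ∈ R \ B, u ∈ R \ T i := by
          intro u hu
          rw [Finset.mem_sdiff] at hu ⊢
          exact ⟨hu.1, fun h => hu.2 (hTB i hiA h)⟩
        exact h1 _ (hf2 i hiC) y (hsub y hy) z (hsub z hz) hyz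

end Pool.Agent.H72Efx
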