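import Pool.Agent.Helper72_EFX.Main

/-! Classes of weights to which the main theorem applies (helper72). -/

namespace Pool.Agent.H72Efx

open Finset Function Pool.Agent.H84Efx

variable {M : Type*}

/-- only two values occur -/
def Bivalued (v : M → ℝ) : Prop := ∃ a b : ℝ, ∀ g, v g = a ∨ v g = b

/-- no item is worth more than two other items -/
def Flat (v : M → ℝ) : Prop := ∀ x y z : M, x ≠ y → x ≠ z → y ≠ z → v x ≤ v y + v z

/-- the best item is worth at most the `n`-th best and the `2 n`-th best item together -/
def Rich (v : M → ℝ) (n : ℕ) : Prop :=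
  ∃ A C : Finset M, A ⊆ C ∧ n ≤ A.card ∧ (2 * n ≤ C.card ∨ ∀ g, g ∈ C) ∧
    ∀ x ∈ A, ∀ z ∈ C, x ≠ z → ∀ y, v y ≤ v x + v z

/-- The items are divided into levels: an item is worth at least as much as any item and any two
items of lower levels, and at most as much as an item of the same level and any other item. -/
def Leveled (v : M → ℝ) : Prop :=
  ∃ l : M → ℕ, (∀ x y, l y < l x → v y ≤ v x) ∧
    (∀ x y z, l y < l x → l z < l x → y ≠ z → v y + v z ≤ v x) ∧
    ∀ x y z, l x = l y → y ≠ z → v x ≤ v y + v z

theorem Flat.leveled {v : M → ℝ} (hv : ∀ g, 0 ≤ v g) (h : Flat v) : Leveled v := by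
  refine ⟨fun _ => 0, fun _ _ h1 => absurd h1 (lt_irrefl _),
    fun _ _ _ h1 _ _ => absurd h1 (lt_irrefl _), ?_⟩
  intro x y z _ hyz
  by_cases h1 : x = y
  · have := hv z
    rw [h1]
    linarith
  · by_cases h2 : x = z
    · have := hv y
      rw [h2]
      linarith
    · exact h x y z h1 h2 hyz

theorem Bivalued.leveled {v : M → ℝ} (hv : ∀ g, 0 ≤ v g) (h : Bivalued v) : Leveled v := by
  classical
  have key : ∀ a b : ℝ, b ≤ a → (∀ g, v g = a ∨ v g = b) → Leveled v := by
    intro a b hab h
    by_cases h2 : 2 * b ≤ a
    · refine ⟨fun g => if v g = a then 1 else 0, ?_, ?_, ?_⟩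
      · intro x y hxy
        dsimp only at hxy
        by_cases hx : v x = a
        · rcases h y with h3 | h3 <;> linarith
        · rw [if_neg hx] at hxy
          exact absurd hxy (Nat.not_lt_zero _)
      · intro x y z hy hz _
        dsimp only at hy hz
        by_cases hx : v x = a
        · rw [if_pos hx] at hy hz
          have hy' : v y ≠ a := by
            intro e; rw [if_pos e] at hy; exact lt_irrefl _ hy
          have hz' : v z ≠ a := by
            intro e; rw [if_pos e] at hz; exact lt_irrefl _ hz
          have h3 := (h y).resolve_left hy'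
          have h4 := (h z).resolve_left hz'
          linarith
        · rw [if_neg hx] at hy
          exact absurd hy (Nat.not_lt_zero _)
      · intro x y z hxy _
        dsimp only at hxy
        have h5 := hv z
        by_cases hx : v x = a
        · by_cases hy : v y = a
          · linarith
          · rw [if_pos hx, if_neg hy] at hxy
            exact absurd hxy one_ne_zero
        · by_cases hy : v y = a
          · rw [if_neg hx, if_pos hy] at hxy
            exact absurd hxy zero_ne_one
          · have h3 := (h x).resolve_left hx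
            have h4 := (h y).resolve_left hy
            linarith
    · push Not at h2
      refine Flat.leveled hv ?_
      intro x y z _ _ _
      have h6 : ∀ g, b ≤ v g ∧ v g ≤ a := by
        intro g
        rcases h g with h3 | h3
        · exact ⟨by linarith, by linarith⟩
        · exact ⟨by linarith, by linarith⟩
      have := h6 x
      have := h6 y
      have := h6 z
      linarith
  obtain ⟨a, b, h⟩ := h
  rcases le_total b a with hab | hab
  · exact key a b hab h
  · exact key b a hab (fun g => (h g).symm)

variable [Fintype M] [DecidableEq M]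

theorem Leveled.tame {v : M → ℝ} (h : Leveled v) (n : ℕ) : Tame v Finset.univ n := by
  obtain ⟨l, h0, h1, h2⟩ := h
  intro B _ _ hne
  obtain ⟨x0, hx0, hmax⟩ := Finset.exists_max_image (Finset.univ \ B) l hne
  refine ⟨(Finset.univ \ B).filter (fun x => ∀ y ∈ Finset.univ \ B, l y ≤ l x),
    Finset.filter_subset _ _, ⟨x0, Finset.mem_filter.mpr ⟨hx0, hmax⟩⟩, ?_, Or.inr ?_⟩
  · intro x hx y hy
    rw [Finset.mem_filter] at hx
    rw [Finset.filter_false_of_mem]
    · simp
    · rintro z _ ⟨hz1, hz2⟩
      rcases (hx.2 y hy).lt_or_eq with h3 | h3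
      · have h4 := h0 x y h3
        have h5 : v x + v z < v x := by linarith
        -- `v z < 0` is impossible: use the third property for `x = y`
        have h6 := h2 x x z rfl hz1.symm
        linarith
      · have h4 := h2 y x z h3 hz1.symm
        linarith
  · intro x hx y hy z hz hyz
    rw [Finset.mem_filter] at hx
    have low : ∀ u ∈ (Finset.univ \ B) \ (Finset.univ \ B).filter
        (fun x => ∀ y ∈ Finset.univ \ B, l y ≤ l x), l u < l x := by
      intro u hu
      rw [Finset.mem_sdiff, Finset.mem_filter, not_and] at hu
      have h3 := hu.2 hu.1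
      push Not at h3
      obtain ⟨t, ht, hlt⟩ := h3
      exact lt_of_lt_of_le hlt (hx.2 t ht)
    exact h1 x y z (low y hy) (low z hz) hyz

theorem Rich.tame {v : M → ℝ} {n : ℕ} (h : Rich v n) : Tame v Finset.univ n := by
  obtain ⟨A, C, hAC, hA, hC, h⟩ := h
  intro B _ hBn _
  have hAB : n ≤ (A \ B).card + B.card := by
    have := Finset.le_card_sdiff B A
    omega
  refine ⟨A \ B, Finset.sdiff_subset_sdiff (Finset.subset_univ _) (Finset.Subset.refl _), ?_, ?_,
    Or.inl hAB⟩
  · rw [← Finset.card_pos]; omega
  · intro x hx y _
    rw [Finset.mem_sdiff] at hx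
    have hsub : (Finset.univ \ B).filter (fun z => z ≠ x ∧ v x + v z < v y) ⊆
        (Finset.univ \ B) \ (C \ B) := by
      intro z hz
      rw [Finset.mem_filter] at hz
      rw [Finset.mem_sdiff]
      refine ⟨hz.1, fun hzC => ?_⟩
      rw [Finset.mem_sdiff] at hzC
      have := h x hx.1 z hzC.1 hz.2.1.symm y
      linarith [hz.2.2]
    have h1 := Finset.card_le_card hsub
    have h2 : C \ B ⊆ Finset.univ \ B :=
      Finset.sdiff_subset_sdiff (Finset.subset_univ _) (Finset.Subset.refl _)
    rw [Finset.card_sdiff_of_subset h2] at h1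
    refine h1.trans ?_
    rcases hC with hC | hC
    · have h3 := Finset.le_card_sdiff B C
      omega
    · have hCu : C = Finset.univ := Finset.eq_univ_iff_forall.mpr hC
      rw [hCu]
      omega

end Pool.Agent.H72Efx
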